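import Pool.Agent.Y90.S.Jobs

/-!
# Trivial discriminants
-/

set_option linter.unusedSectionVars false
set_option linter.unusedSimpArgs false

namespace Pool.Agent.Y317.S4.Disc

open Matrix Module Pool.Agent.W437.HC Pool.Agent.W437.HD Pool.Agent.W548.Odd Pool.Agent.TH504.CB
open Pool.Agent.Y90 Pool.Agent.Y90.S
open Pool.Agent.H204R3.CM (IsHodge)
open Pool.Agent.W437.HP (cK cK_mul cK_one)

noncomputable section

variable {t : ℕ} {d : ℚ}

theorem reZT : reM (ZT t d) = 0 := by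
  ext i j
  by_cases h : i = j
  · subst h
    simp [reM, ZT, dE]
  · simp [reM, ZT, dE, Matrix.one_apply_ne h]

theorem imZT : imM (ZT t d) = Real.sqrt d • (1 : Matrix (Fin t) (Fin t) ℝ) := by
  ext i j
  by_cases h : i = j
  · subst h
    simp [imM, ZT, dE]
  · simp [imM, ZT, dE, Matrix.one_apply_ne h]

theorem pmT (hd : 0 < d) : PM (ZT t d) := by
  refine ⟨?_, ?_⟩
  · unfold ZT
    rw [transpose_smul, transpose_one]
  · rw [imZT]
    exact PosDef.smul PosDef.one (sqrt_pos hd)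

theorem JRT (hd : 0 < d) : JR (ZT t d) = fromBlocks 0 (-(Real.sqrt d • 1))
    ((Real.sqrt d)⁻¹ • 1) 0 := by
  have h1 := sqrt_pos hd
  have h2 : (imM (ZT t d))⁻¹ = (Real.sqrt d)⁻¹ • (1 : Matrix (Fin t) (Fin t) ℝ) := by
    rw [imZT]
    refine Matrix.inv_eq_right_inv ?_
    rw [smul_mul_smul_comm, mul_inv_cancel₀ h1.ne', one_smul, Matrix.one_mul]
  unfold JR
  rw [h2, reZT, imZT]
  simp

theorem DZT (hd : 0 < d) : DZ (ZT t d) = (dE d)⁻¹ • qm (phT t d) := by
  have h1 := sqrt_pos hd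
  have h2 : (dE d)⁻¹ = -Complex.I * ((Real.sqrt d : ℝ) : ℂ)⁻¹ := by
    unfold dE
    rw [mul_inv, Complex.inv_I, mul_comm]
  have h3 : Real.sqrt d = (Real.sqrt d)⁻¹ * d := by
    have h4 : Real.sqrt d * Real.sqrt d = d := Real.mul_self_sqrt (by exact_mod_cast hd.le)
    rw [eq_inv_mul_iff_mul_eq₀ h1.ne', h4]
  have h5 : ((Real.sqrt d : ℝ) : ℂ) = ((Real.sqrt d : ℝ) : ℂ)⁻¹ * (d : ℂ) := by
    rw [← Complex.ofReal_inv]
    exact_mod_cast h3
  unfold DZ
  rw [JRT hd, h2, mul_smul]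
  congr 1
  ext i j
  rcases i with i | i <;> rcases j with j | j
  · simp [phT, qm]
  · by_cases h : i = j
    · subst h
      simp only [phT, qm, Matrix.map_apply, fromBlocks_apply₁₂, Matrix.neg_apply,
        Matrix.smul_apply, Matrix.one_apply_eq, smul_eq_mul, mul_one, Complex.ofReal_neg,
        Rat.cast_neg, mul_neg]
      rw [← h5]
    · simp [phT, qm, Matrix.one_apply_ne h]
  · by_cases h : i = j
    · subst h
      simp [phT, qm]
    · simp [phT, qm, Matrix.one_apply_ne h]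
  · simp [phT, qm]

/-- The weighted symplectic form. -/
def OL {K : Type} [Ring K] (L : Fin t → K) : Matrix (Fin t ⊕ Fin t) (Fin t ⊕ Fin t) K :=
  fromBlocks 0 (diagonal L) (-(diagonal L)) 0

/-- The weighted polarization. -/
def ML (a : ℕ) (L : Fin t → ℚ) : Matrix ((Fin a ⊕ Fin a) ⊕ (Fin t ⊕ Fin t))
    ((Fin a ⊕ Fin a) ⊕ (Fin t ⊕ Fin t)) ℚ :=
  fromBlocks (-Om a ℚ) 0 0 (-(OL L))

theorem OL_transpose {K : Type} [CommRing K] (L : Fin t → K) : (OL L)ᵀ = -OL L := by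
  simp [OL, fromBlocks_transpose, fromBlocks_neg]

theorem cK_ML (a : ℕ) (L : Fin t → ℚ) :
    cK ℝ (ML a L) = fromBlocks (-Om a ℝ) 0 0 (-(OL (fun i => ((L i : ℚ) : ℝ)))) := by
  have h1 : cK ℝ (Om a ℚ) = Om a ℝ := Om_map ℝ
  rw [← h1]
  ext i j
  rcases i with i | i <;> rcases j with j | j
  · simp [cK, ML]
  · simp [cK, ML]
  · simp [cK, ML]
  · rcases i with i | i <;> rcases j with j | j
    · simp [cK, ML, OL]
    · by_cases h : i = j
      · subst h
        simp [cK, ML, OL]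
      · simp [cK, ML, OL, h]
    · by_cases h : i = j
      · subst h
        simp [cK, ML, OL]
      · simp [cK, ML, OL, h]
    · simp [cK, ML, OL]

theorem JR_OL (hd : 0 < d) (L : Fin t → ℝ) :
    (JR (ZT t d))ᵀ * OL L + OL L * JR (ZT t d) = 0 := by
  rw [JRT hd]
  unfold OL
  rw [fromBlocks_transpose, fromBlocks_multiply, fromBlocks_multiply, fromBlocks_add]
  simp only [transpose_zero, transpose_smul, transpose_neg, transpose_one, Matrix.zero_mul,
    Matrix.mul_zero, zero_add, add_zero, Matrix.smul_mul, Matrix.mul_smul, Matrix.one_mul,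
    Matrix.mul_one, Matrix.neg_mul, Matrix.mul_neg, smul_neg, neg_neg, neg_add_cancel]
  ext i j
  rcases i with i | i <;> rcases j with j | j <;> simp

theorem pos_OL (hd : 0 < d) {L : Fin t → ℝ} (hL : ∀ i, 0 < L i) {x : Fin t ⊕ Fin t → ℝ}
    (hx : x ≠ 0) : 0 < (JR (ZT t d) *ᵥ x) ⬝ᵥ ((-(OL L)) *ᵥ x) := by
  have h1 := sqrt_pos hd
  obtain ⟨x₁, x₂, rfl⟩ : ∃ x₁ x₂, x = Sum.elim x₁ x₂ :=
    ⟨fun i => x (Sum.inl i), fun i => x (Sum.inr i), by
      funext i
      rcases i with i | i <;> rfl⟩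
  have h2 : (JR (ZT t d) *ᵥ Sum.elim x₁ x₂) ⬝ᵥ ((-(OL L)) *ᵥ Sum.elim x₁ x₂) =
      ∑ i, L i * (Real.sqrt d * x₂ i ^ 2 + (Real.sqrt d)⁻¹ * x₁ i ^ 2) := by
    rw [JRT hd]
    unfold OL
    rw [neg_mulVec, fromBlocks_mulVec, fromBlocks_mulVec, dotProduct_neg,
      sumElim_dotProduct_sumElim]
    simp only [Sum.elim_comp_inl, Sum.elim_comp_inr, zero_mulVec, add_zero, zero_add, neg_mulVec,
      smul_mulVec, one_mulVec, neg_dotProduct, dotProduct_neg, smul_dotProduct, smul_eq_mul]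
    simp only [dotProduct, mulVec_diagonal, Finset.mul_sum, ← Finset.sum_neg_distrib,
      ← Finset.sum_add_distrib]
    exact Finset.sum_congr rfl fun i _ => by ring
  rw [h2]
  have h3 : ∀ i, 0 ≤ L i * (Real.sqrt d * x₂ i ^ 2 + (Real.sqrt d)⁻¹ * x₁ i ^ 2) := fun i => by
    have := hL i
    positivity
  rcases (Finset.sum_nonneg fun i _ => h3 i).lt_or_eq with h4 | h4
  · exact h4
  · exfalso
    apply hx
    have h5 := (Finset.sum_eq_zero_iff_of_nonneg fun i _ => h3 i).1 h4.symm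
    have h6 : ∀ i, x₁ i = 0 ∧ x₂ i = 0 := by
      intro i
      have h7 := h5 i (Finset.mem_univ i)
      rcases mul_eq_zero.1 h7 with h8 | h8
      · exact absurd h8 (hL i).ne'
      · have h9 : 0 ≤ Real.sqrt d * x₂ i ^ 2 := by positivity
        have h10 : 0 ≤ (Real.sqrt d)⁻¹ * x₁ i ^ 2 := by positivity
        have h11 : Real.sqrt d * x₂ i ^ 2 = 0 := by linarith
        have h12 : (Real.sqrt d)⁻¹ * x₁ i ^ 2 = 0 := by linarith
        constructor
        · rcases mul_eq_zero.1 h12 with h | h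
          · exact absurd h (inv_ne_zero h1.ne')
          · exact pow_eq_zero_iff two_ne_zero |>.1 h
        · rcases mul_eq_zero.1 h11 with h | h
          · exact absurd h h1.ne'
          · exact pow_eq_zero_iff two_ne_zero |>.1 h
    funext i
    rcases i with i | i
    · exact (h6 i).1
    · exact (h6 i).2

/-- The polarization of the product. -/
theorem pol_ML {a : ℕ} {Z : Matrix (Fin a) (Fin a) ℂ} (h : PM Z) (hd : 0 < d) {L : Fin t → ℚ}
    (hL : ∀ i, 0 < L i) : Pool.Agent.Y90.IsPolarization (perP (perOne Z) (perOne (ZT t d)))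
      (fun v w => v ⬝ᵥ (ML a L *ᵥ w)) := by
  have hL' : ∀ i, (0 : ℝ) < ((L i : ℚ) : ℝ) := fun i => by exact_mod_cast hL i
  refine (h.cht.prod (pmT hd).cht).polar _ ?_ ?_ ?_
  · unfold ML
    rw [fromBlocks_transpose, fromBlocks_neg, transpose_neg, transpose_neg, OL_transpose,
      Om_transpose, transpose_zero, transpose_zero, neg_zero, neg_zero]
  · rw [cK_ML, fromBlocks_transpose, fromBlocks_multiply, fromBlocks_multiply, fromBlocks_add]
    have e1 := JR_sp h.symm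
    have e2 := JR_OL (t := t) hd (fun i => ((L i : ℚ) : ℝ))
    simp only [transpose_zero, Matrix.mul_zero, Matrix.zero_mul, add_zero, zero_add,
      Matrix.mul_neg, Matrix.neg_mul]
    rw [← neg_add, e1, ← neg_add, e2]
    simp
  · intro x hx
    obtain ⟨x₁, x₂, rfl⟩ : ∃ x₁ x₂, x = Sum.elim x₁ x₂ :=
      ⟨fun i => x (Sum.inl i), fun i => x (Sum.inr i), by
        funext i
        rcases i with i | i <;> rfl⟩
    rw [cK_ML, fromBlocks_mulVec, fromBlocks_mulVec, sumElim_dotProduct_sumElim]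
    simp only [Sum.elim_comp_inl, Sum.elim_comp_inr, zero_mulVec, add_zero, zero_add]
    by_cases hx₁ : x₁ = 0
    · have hx₂ : x₂ ≠ 0 := by
        rintro rfl
        apply hx
        rw [hx₁]
        funext i
        rcases i with i | i <;> rfl
      rw [hx₁, mulVec_zero, zero_dotProduct, zero_add]
      exact pos_OL hd hL' hx₂
    · have e4 := h.pos_om hx₁
      have e5 : 0 ≤ (JR (ZT t d) *ᵥ x₂) ⬝ᵥ ((-(OL fun i => ((L i : ℚ) : ℝ))) *ᵥ x₂) := by
        by_cases hx₂ : x₂ = 0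
        · rw [hx₂, mulVec_zero, zero_dotProduct]
        · exact (pos_OL hd hL' hx₂).le
      linarith

/-- The second form. -/
def rL (L : Fin t → ℚ) (v w : Fin t ⊕ Fin t → ℚ) : ℚ :=
  ∑ i, L i * (v (Sum.inr i) * w (Sum.inl i) - v (Sum.inl i) * w (Sum.inr i))

theorem EL_split {a : ℕ} (L : Fin t → ℚ) (v w : (Fin a ⊕ Fin a) ⊕ (Fin t ⊕ Fin t) → ℚ) :
    v ⬝ᵥ (ML a L *ᵥ w) = rE a (fun i => v (Sum.inl i)) (fun i => w (Sum.inl i)) +
      rL L (fun i => v (Sum.inr i)) (fun i => w (Sum.inr i)) := by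
  obtain ⟨v₁, v₂, rfl⟩ : ∃ x₁ x₂, v = Sum.elim x₁ x₂ :=
    ⟨fun i => v (Sum.inl i), fun i => v (Sum.inr i), by
      funext i
      rcases i with i | i <;> rfl⟩
  obtain ⟨w₁, w₂, rfl⟩ : ∃ x₁ x₂, w = Sum.elim x₁ x₂ :=
    ⟨fun i => w (Sum.inl i), fun i => w (Sum.inr i), by
      funext i
      rcases i with i | i <;> rfl⟩
  unfold ML
  rw [fromBlocks_mulVec, sumElim_dotProduct_sumElim]
  simp only [Sum.elim_comp_inl, Sum.elim_comp_inr, zero_mulVec, add_zero, zero_add, Sum.elim_inl,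
    Sum.elim_inr]
  unfold rE
  congr 1
  obtain ⟨v₁, v₂, rfl⟩ : ∃ x₁ x₂, v₂ = Sum.elim x₁ x₂ :=
    ⟨fun i => v₂ (Sum.inl i), fun i => v₂ (Sum.inr i), by
      funext i
      rcases i with i | i <;> rfl⟩
  obtain ⟨w₁, w₂, rfl⟩ : ∃ x₁ x₂, w₂ = Sum.elim x₁ x₂ :=
    ⟨fun i => w₂ (Sum.inl i), fun i => w₂ (Sum.inr i), by
      funext i
      rcases i with i | i <;> rfl⟩
  unfold OL rL
  rw [neg_mulVec, fromBlocks_mulVec, dotProduct_neg, sumElim_dotProduct_sumElim]
  simp only [Sum.elim_comp_inl, Sum.elim_comp_inr, zero_mulVec, add_zero, zero_add, neg_mulVec,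
    dotProduct_neg, Sum.elim_inl, Sum.elim_inr]
  simp only [dotProduct, mulVec_diagonal, ← Finset.sum_neg_distrib, ← Finset.sum_add_distrib]
  exact Finset.sum_congr rfl fun i _ => by ring

theorem phT_inl (s : ℚ) (v : Fin t ⊕ Fin t → ℚ) (i : Fin t) :
    ((s • phT t d) *ᵥ v) (Sum.inl i) = -(s * d * v (Sum.inr i)) := by
  unfold phT
  rw [smul_mulVec, fromBlocks_mulVec]
  simp only [Pi.smul_apply, Sum.elim_inl, zero_mulVec, zero_add, neg_mulVec, Pi.neg_apply,
    smul_mulVec, one_mulVec, smul_eq_mul, Function.comp_apply]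
  ring

theorem phT_inr (s : ℚ) (v : Fin t ⊕ Fin t → ℚ) (i : Fin t) :
    ((s • phT t d) *ᵥ v) (Sum.inr i) = s * v (Sum.inl i) := by
  unfold phT
  rw [smul_mulVec, fromBlocks_mulVec]
  simp only [Pi.smul_apply, Sum.elim_inr, zero_mulVec, add_zero, one_mulVec, smul_eq_mul,
    Function.comp_apply]

theorem rL_skew (L : Fin t → ℚ) (s : ℚ) (v w : Fin t ⊕ Fin t → ℚ) :
    rL L ((s • phT t d) *ᵥ v) w = -rL L v ((s • phT t d) *ᵥ w) := by
  unfold rL
  simp only [phT_inl, phT_inr, ← Finset.sum_neg_distrib]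
  exact Finset.sum_congr rfl fun i _ => by ring

theorem rL_gram (L : Fin t → ℚ) (s : ℚ) (i j : Fin t) :
    rL L (Sum.elim (Pi.single i 1) 0) ((s • phT t d) *ᵥ (Sum.elim (Pi.single j 1) 0)) =
      if i = j then -(s * L i) else 0 := by
  unfold rL
  simp only [phT_inl, phT_inr, Sum.elim_inl, Sum.elim_inr, Pi.zero_apply, zero_mul, zero_sub]
  rw [Finset.sum_eq_single i]
  · by_cases h : i = j
    · subst h
      rw [if_pos rfl, Pi.single_eq_same]
      ring
    · rw [if_neg h, Pi.single_eq_of_ne h]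
      ring
  · intro k _ hk
    rw [Pi.single_eq_of_ne hk]
    ring
  · intro h
    exact absurd (Finset.mem_univ i) h

theorem rL_zero (L : Fin t → ℚ) (i j : Fin t) :
    rL L (Sum.elim (Pi.single i 1) 0) (Sum.elim (Pi.single j 1) 0) = 0 := by
  unfold rL
  simp

/-! ## The trace -/

theorem qm_phT : qm (phT t d) = fromBlocks 0 (-((d : ℂ) • 1)) 1 0 := by
  ext i j
  rcases i with i | i <;> rcases j with j | j
  · simp [phT, qm]
  · by_cases h : i = j
    · subst h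
      simp [phT, qm]
    · simp [phT, qm, Matrix.one_apply_ne h]
  · by_cases h : i = j
    · subst h
      simp [phT, qm]
    · simp [phT, qm, Matrix.one_apply_ne h]
  · simp [phT, qm]

theorem qphT (v : Fin t ⊕ Fin t → ℂ) (s : ℚ) :
    qm (s • phT t d) *ᵥ v = Sum.elim (fun i => -((s : ℂ) * d * v (Sum.inr i)))
      (fun i => s * v (Sum.inl i)) := by
  rw [qm_smul, qm_phT, smul_mulVec, fromBlocks_mulVec]
  funext i
  rcases i with i | i
  · simp only [Pi.smul_apply, Sum.elim_inl, zero_mulVec, zero_add, neg_mulVec, Pi.neg_apply,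
      smul_mulVec, one_mulVec, smul_eq_mul, Function.comp_apply]
    ring
  · simp only [Pi.smul_apply, Sum.elim_inr, zero_mulVec, add_zero, one_mulVec, smul_eq_mul,
      Function.comp_apply]

/-- The parametrization of the eigenspace. -/
def par (t : ℕ) (c : ℂ) : (Fin t → ℂ) →ₗ[ℂ] (Fin t ⊕ Fin t → ℂ) where
  toFun v := Sum.elim (c • v) v
  map_add' v w := by
    funext i
    rcases i with i | i <;> simp [mul_add]
  map_smul' a v := by
    funext i
    rcases i with i | i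
    · simp only [Sum.elim_inl, Pi.smul_apply, smul_eq_mul, RingHom.id_apply]
      ring
    · simp

theorem EG_eq {α : ℂ} (hα : α * α = -(d : ℂ)) {s : ℚ} (hs : s * s = 1) :
    EG (s • phT t d) α = LinearMap.range (par t (s * α)) := by
  have hs' : (s : ℂ) * s = 1 := by exact_mod_cast hs
  ext v
  rw [mem_EG, qphT, LinearMap.mem_range]
  constructor
  · intro h
    refine ⟨fun i => v (Sum.inr i), ?_⟩
    funext i
    rcases i with i | i
    · have h1 := congrFun h (Sum.inr i)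
      simp only [Sum.elim_inr, Pi.smul_apply, smul_eq_mul] at h1
      change (s * α) * v (Sum.inr i) = v (Sum.inl i)
      linear_combination (-(s : ℂ)) * h1 + v (Sum.inl i) * hs'
    · rfl
  · rintro ⟨w, rfl⟩
    funext i
    rcases i with i | i
    · change -((s : ℂ) * d * w i) = α * ((s * α) * w i)
      linear_combination (-(s : ℂ) * w i) * hα
    · change (s : ℂ) * ((s * α) * w i) = α * w i
      linear_combination (α * w i) * hs'

theorem finrank_EG {α : ℂ} (hα : α * α = -(d : ℂ)) {s : ℚ} (hs : s * s = 1) :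
    finrank ℂ (EG (s • phT t d) α) = t := by
  rw [EG_eq hα hs, LinearMap.finrank_range_of_inj, finrank_fintype_fun_eq_card, Fintype.card_fin]
  intro v w h
  funext i
  exact congrFun h (Sum.inr i)

theorem tr_T (hd : 0 < d) {α : ℂ} (hα : α * α = -(d : ℂ)) {s : ℚ} (hs : s * s = 1) {ε : ℤ}
    (hε : ε = 1 ∨ ε = -1) (h : (s : ℂ) * α = ε * dE d) :
    tr (ZT t d) (EG (s • phT t d) α) = ε * t := by
  have hs' : (s : ℂ) * s = 1 := by exact_mod_cast hs
  have h1 : ∀ u ∈ EG (s • phT t d) α, DZ (ZT t d) *ᵥ u = (ε : ℂ) • u := by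
    intro u hu
    rw [mem_EG, qm_smul, smul_mulVec] at hu
    have h2 : qm (phT t d) *ᵥ u = ((s : ℂ) * α) • u := by
      rw [mul_smul, ← hu, smul_smul, hs', one_smul]
    rw [DZT hd, smul_mulVec, h2, smul_smul, h, mul_comm (ε : ℂ), ← mul_assoc,
      inv_mul_cancel₀ (dE_ne hd), one_mul]
  have h2 : EG (s • phT t d) α ≤ eig (ZT t d) (ε : ℂ) := h1
  have h3 : EG (s • phT t d) α ⊓ eig (ZT t d) (ε : ℂ) = EG (s • phT t d) α := inf_eq_left.2 h2
  have h4 : ∀ c : ℂ, (ε : ℂ) ≠ c → EG (s • phT t d) α ⊓ eig (ZT t d) c = ⊥ := by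
    intro c hc
    rw [eq_bot_iff, ← eig_inf (ε : ℂ) c hc]
    exact inf_le_inf h2 le_rfl
  unfold tr pd qd
  rcases hε with rfl | rfl
  · have h5 := h3
    rw [Int.cast_one] at h5
    rw [h5, h4 (-1) (by norm_num), finrank_EG hα hs, finrank_bot]
    norm_num
  · have h5 := h3
    rw [Int.cast_neg, Int.cast_one] at h5
    rw [h5, h4 1 (by norm_num), finrank_EG hα hs, finrank_bot]
    norm_num

theorem sgn_pow {a t q : ℕ} {ε : ℤ} (hε : ε = 1 ∨ ε = -1) (h : 2 * (q : ℤ) = a + ε * t) :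
    Even (a + t) ∧ (-1 : ℤ) ^ q * ε ^ a = (-1) ^ ((a + t) / 2) := by
  rcases hε with rfl | rfl
  · have h1 : a + t = 2 * q := by omega
    refine ⟨⟨q, by omega⟩, ?_⟩
    rw [h1, Nat.mul_div_cancel_left _ two_pos, one_pow, mul_one]
  · have h1 : a = 2 * q + t := by omega
    refine ⟨⟨q + t, by omega⟩, ?_⟩
    have h2 : (a + t) / 2 = q + t := by omega
    rw [h2, h1, ← pow_add, show q + (2 * q + t) = 2 * q + (q + t) by ring, pow_add, pow_mul]
    norm_num

theorem x : JDisc := by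
  intro a Z h U φ α d k t ht s hs htr
  have hd := k.pos
  have hα := k.al
  have hs' : (s : ℂ) * s = 1 := by exact_mod_cast hs
  obtain ⟨x₁, r, P, hP, hr, g⟩ := k.gram h
  obtain ⟨ε, hε, hεs⟩ : ∃ ε : ℤ, (ε = 1 ∨ ε = -1) ∧ (s : ℂ) * α = ε * dE d := by
    have h2 := dE_sq hd
    have h3 : ((s : ℂ) * α - dE d) * (s * α + dE d) = 0 := by
      linear_combination (α * α) * hs' + hα - h2
    rcases mul_eq_zero.1 h3 with h4 | h4
    · exact ⟨1, Or.inl rfl, by rw [sub_eq_zero.1 h4]; simp⟩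
    · exact ⟨-1, Or.inr rfl, by rw [eq_neg_of_add_eq_zero_left h4]; simp⟩
  rw [tr_T hd hα hs hε hεs] at htr
  have hpq : pd Z U + qd Z U = a := by
    rw [pd_add_qd h k.stab, k.dim]
  have hq : 2 * ((qd Z U : ℕ) : ℤ) = a + ε * t := by
    unfold tr at htr
    omega
  obtain ⟨heven, hsign⟩ := sgn_pow hε hq
  -- the sign of `r`
  have hsd := sqrt_pos hd
  have hεε : (ε : ℝ) * ε = 1 := by
    rcases hε with h1 | h1 <;> rw [h1] <;> norm_num
  have hsr : (s : ℝ) * s = 1 := by exact_mod_cast hs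
  have h2i : 2 * Complex.I * α = (((-(ε * s)) * (2 * Real.sqrt d) : ℝ) : ℂ) := by
    have h1 : α = s * (ε * dE d) := by
      rw [← hεs, ← mul_assoc, hs', one_mul]
    rw [h1]
    unfold dE
    push_cast
    linear_combination (2 * s * ε * ((Real.sqrt d : ℝ) : ℂ)) * Complex.I_mul_I
  have hg : (r : ℝ) * (-1) ^ qd Z U = (-(ε * s)) ^ a * ((2 * Real.sqrt d) ^ a * P) := by
    rw [h2i] at g
    rw [← mul_assoc, ← mul_pow]
    exact_mod_cast g
  have hu1 : ((-1 : ℝ) ^ qd Z U) * (-1) ^ qd Z U = 1 := by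
    rw [← mul_pow]; norm_num
  have hu2 : ((-((ε : ℝ) * s)) ^ a) * (-(ε * s)) ^ a = 1 := by
    rw [← mul_pow, neg_mul_neg, mul_mul_mul_comm, hεε, hsr, one_mul, one_pow]
  have hpos : 0 < (2 * Real.sqrt d) ^ a * P := by positivity
  have hr1 : (r : ℝ) = (((-1) ^ qd Z U * (-(ε * s)) ^ a : ℝ)) * ((2 * Real.sqrt d) ^ a * P) := by
    calc (r : ℝ) = (r * (-1) ^ qd Z U) * (-1) ^ qd Z U := by rw [mul_assoc, hu1, mul_one]
      _ = _ := by rw [hg]; ring
  have hr0 : r ≠ 0 := by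
    rintro rfl
    rw [Rat.cast_zero] at hr1
    rcases mul_eq_zero.1 hr1.symm with h1 | h1
    · have h3 : ((-1 : ℝ) ^ qd Z U * (-(ε * s)) ^ a) * ((-1 : ℝ) ^ qd Z U * (-(ε * s)) ^ a) = 1 := by
        rw [mul_mul_mul_comm, hu1, hu2, one_mul]
      rw [h1, mul_zero] at h3
      exact zero_ne_one h3
    · exact hpos.ne' h1
  have habs : (|r| : ℚ) = r * ((-1) ^ qd Z U * (-(ε * s)) ^ a) := by
    have h3 : ((-1 : ℝ) ^ qd Z U * (-(ε * s)) ^ a) * ((-1 : ℝ) ^ qd Z U * (-(ε * s)) ^ a) = 1 := by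
      rw [mul_mul_mul_comm, hu1, hu2, one_mul]
    have h4 : (r : ℝ) * ((-1 : ℝ) ^ qd Z U * (-(ε * s)) ^ a) = (2 * Real.sqrt d) ^ a * P := by
      conv_lhs => rw [hr1]
      rw [mul_comm, ← mul_assoc, h3, one_mul]
    have h5 : |(r : ℝ)| = (2 * Real.sqrt d) ^ a * P := by
      have h6 : |(-1 : ℝ) ^ qd Z U * (-(ε * s)) ^ a| = 1 := by
        have h7 := abs_mul_abs_self ((-1 : ℝ) ^ qd Z U * (-(ε * s)) ^ a)
        rw [h3] at h7
        nlinarith [abs_nonneg ((-1 : ℝ) ^ qd Z U * (-(ε * s)) ^ a)]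
      rw [hr1, abs_mul, h6, one_mul, abs_of_pos hpos]
    have h6 : ((|r| : ℚ) : ℝ) = ((r * ((-1) ^ qd Z U * (-(ε * s)) ^ a) : ℚ) : ℝ) := by
      push_cast
      rw [h4, h5]
    exact_mod_cast h6
  -- the weights
  let L : Fin t → ℚ := Function.update 1 ⟨0, ht⟩ |r|
  have hL : ∀ i, 0 < L i := by
    intro i
    by_cases hi : i = ⟨0, ht⟩
    · rw [show L i = |r| from by rw [hi]; exact Function.update_self _ _ _]
      exact abs_pos.2 hr0
    · rw [show L i = 1 from Function.update_of_ne hi _ _]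
      exact one_pos
  have hLp : ∏ i, L i = |r| := by
    rw [Finset.prod_update_of_mem (Finset.mem_univ _)]
    simp
  let e : Fin a ⊕ Fin t ≃ Fin (a + t) := finSumFinEquiv
  let vv : Fin a ⊕ Fin t → ((Fin a ⊕ Fin a) ⊕ (Fin t ⊕ Fin t) → ℚ) :=
    Sum.elim (fun i => Sum.elim (x₁ i) 0) (fun i => Sum.elim 0 (Sum.elim (Pi.single i 1) 0))
  refine ⟨α, fun v w => v ⬝ᵥ (ML a L *ᵥ w), fun i => vv (e.symm i), r, 0, k.al,
    pol_ML h hd hL, fun v w => ?_, Or.inl hr0, ?_⟩
  · beta_reduce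
    rw [toLin'_apply, toLin'_apply, EL_split, EL_split, PHQ_l, PHQ_r, PHQ_l, PHQ_r, k.skewQ h,
      rL_skew]
    ring
  · let M₁ : Matrix (Fin a) (Fin a) ℂ := Matrix.of fun i j =>
      ((rE a (x₁ i) (φ *ᵥ x₁ j) : ℚ) : ℂ) + α * ((rE a (x₁ i) (x₁ j) : ℚ) : ℂ)
    have hz : ∀ w : Fin a ⊕ Fin a → ℚ, rE a w 0 = 0 := fun w => by
      unfold rE
      rw [mulVec_zero, dotProduct_zero]
    have hz' : ∀ w : Fin a ⊕ Fin a → ℚ, rE a 0 w = 0 := fun w => by
      unfold rE
      rw [zero_dotProduct]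
    have hy : ∀ w : Fin t ⊕ Fin t → ℚ, rL L w 0 = 0 := fun w => by
      unfold rL
      simp
    have hy' : ∀ w : Fin t ⊕ Fin t → ℚ, rL L 0 w = 0 := fun w => by
      unfold rL
      simp
    have h0 : (fun _ : Fin a ⊕ Fin a => (0 : ℚ)) = 0 := rfl
    have h0' : (fun _ : Fin t ⊕ Fin t => (0 : ℚ)) = 0 := rfl
    have hM : (Matrix.of fun i j =>
        ((vv (e.symm i) ⬝ᵥ (ML a L *ᵥ (Matrix.toLin' (PH φ (s • phT t d)) (vv (e.symm j)))) :
          ℚ) : ℂ) + α * ((vv (e.symm i) ⬝ᵥ (ML a L *ᵥ vv (e.symm j)) : ℚ) : ℂ)) =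
        (fromBlocks M₁ 0 0 (diagonal fun i => (((-(s * L i)) : ℚ) : ℂ))).submatrix e.symm e.symm := by
      ext i j
      rw [Matrix.of_apply, submatrix_apply, toLin'_apply, EL_split, EL_split, PHQ_l, PHQ_r]
      generalize e.symm i = i'
      generalize e.symm j = j'
      rcases i' with i' | i' <;> rcases j' with j' | j'
      · simp only [vv, Sum.elim_inl, Sum.elim_inr, fromBlocks_apply₁₁, Pi.zero_apply, h0, h0', hy,
          hy', hz, hz', mul_zero, add_zero]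
        rfl
      · simp only [vv, Sum.elim_inl, Sum.elim_inr, fromBlocks_apply₁₂, Pi.zero_apply, h0, h0', hy,
          hy', hz, hz', mul_zero, add_zero, mulVec_zero]
        simp
      · simp only [vv, Sum.elim_inl, Sum.elim_inr, fromBlocks_apply₂₁, Pi.zero_apply, h0, h0', hy,
          hy', hz, hz', mul_zero, add_zero, mulVec_zero]
        simp
      · simp only [vv, Sum.elim_inl, Sum.elim_inr, fromBlocks_apply₂₂, Pi.zero_apply, h0, h0', hy,
          hy', hz, hz', zero_add]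
        have e1 := rL_gram (d := d) L s i' j'
        have e2 := rL_zero L i' j'
        rw [show (fun i => (Sum.elim (Pi.single i' 1) 0 : Fin t ⊕ Fin t → ℚ) i) =
          Sum.elim (Pi.single i' 1) 0 from rfl, show (fun i => (Sum.elim (Pi.single j' 1) 0 :
          Fin t ⊕ Fin t → ℚ) i) = Sum.elim (Pi.single j' 1) 0 from rfl, e1, e2]
        by_cases hij : i' = j'
        · subst hij
          rw [if_pos rfl, diagonal_apply_eq]
          simp
        · rw [if_neg hij, diagonal_apply_ne _ hij]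
          simp
    have h1 : (Matrix.of fun i j =>
        ((vv (e.symm i) ⬝ᵥ (ML a L *ᵥ (Matrix.toLin' (PH φ (s • phT t d)) (vv (e.symm j)))) :
          ℚ) : ℂ) + α * ((vv (e.symm i) ⬝ᵥ (ML a L *ᵥ vv (e.symm j)) : ℚ) : ℂ)).det =
        (r : ℂ) * ((∏ i, (-(s * L i)) : ℚ) : ℂ) := by
      rw [hM, det_submatrix_equiv_self, det_fromBlocks_zero₂₁, det_diagonal,
        show M₁.det = r from hr]
      push_cast
      rfl
    refine Eq.trans h1 ?_
    have h2 : (∏ i, (-(s * L i)) : ℚ) = (-s) ^ t * |r| := by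
      rw [← hLp]
      have h3 : ∀ i, -(s * L i) = (-s) * L i := fun i => by ring
      simp only [h3]
      rw [Finset.prod_mul_distrib, Finset.prod_const, Finset.card_univ, Fintype.card_fin]
    rw [h2, habs]
    have h3 : (-s) ^ a * (-s) ^ t = 1 := by
      obtain ⟨m, hm⟩ := heven
      rw [← pow_add, hm, ← two_mul, pow_mul, neg_sq, pow_two, hs, one_pow]
    have h4 : r * ((-s) ^ t * (r * ((-1) ^ qd Z U * (-((ε : ℚ) * s)) ^ a))) =
        (-1) ^ ((a + t) / 2) * (r ^ 2 + d * 0 ^ 2) := by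
      have h5 : ((-1 : ℚ)) ^ qd Z U * (ε : ℚ) ^ a = (-1) ^ ((a + t) / 2) := by
        exact_mod_cast hsign
      rw [← h5, show -((ε : ℚ) * s) = ε * (-s) by ring, mul_pow]
      linear_combination (r ^ 2 * (-1) ^ qd Z U * (ε : ℚ) ^ a) * h3
    exact_mod_cast congrArg (fun x : ℚ => (x : ℂ)) h4

end

end Pool.Agent.Y317.S4.Disc
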